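import Mathlib

set_option autoImplicit false

namespace Run7.h24.GH.MT

open Finset Matrix

variable {V : Type*} [Fintype V] [DecidableEq V] {A : Type*} [CommRing A]

/-- there is a rank function decreasing along `f` away from `r`. -/
def Acyc (r : V) (f : V → V) : Prop := ∃ d : V → ℕ, ∀ v, v ≠ r → d (f v) < d v

omit [Fintype V] [DecidableEq V] in
lemma acyc_of_reach {r : V} {f : V → V} (h : ∀ v, ∃ n : ℕ, f^[n] v = r) : Acyc r f := by
  classical
  refine ⟨fun v => Nat.find (h v), fun v hv => ?_⟩
  have h1 := Nat.find_spec (h v)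
  have h0 : Nat.find (h v) ≠ 0 := by
    intro h0
    rw [h0] at h1
    exact hv h1
  obtain ⟨k, hk⟩ := Nat.exists_eq_succ_of_ne_zero h0
  rw [hk] at h1
  have h2 : f^[k] (f v) = r := by
    rw [← Function.iterate_succ_apply]
    exact h1
  have h3 : Nat.find (h (f v)) ≤ k := Nat.find_min' _ h2
  show Nat.find (h (f v)) < Nat.find (h v)
  omega

/-- the matrix with row `i` equal to `e_i - e_(f i)` and row `r` equal to `e_r`. -/
def Z (A : Type*) [CommRing A] (r : V) (f : V → V) : Matrix V V A := fun i j =>
  if i = r then (if j = r then 1 else 0)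
  else (if j = i then 1 else 0) - (if j = f i then 1 else 0)

lemma det_Z_of_acyc {r : V} {f : V → V} (h : Acyc r f) : (Z A r f).det = 1 := by
  obtain ⟨d, hd⟩ := h
  have hoff : ∀ i j : V, i ≠ j → d i ≤ d j → Z A r f i j = 0 := by
    intro i j hij hdij
    unfold Z
    by_cases hi : i = r
    · subst hi
      simp [hij.symm]
    · have hlt := hd i hi
      have hj : j ≠ f i := by
        rintro rfl
        omega
      simp [hi, hij.symm, hj]
  have hdiag : ∀ i : V, Z A r f i i = 1 := by
    intro i
    unfold Z
    by_cases hi : i = r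
    · simp [hi]
    · have hlt := hd i hi
      have hj : i ≠ f i := by
        intro h
        rw [← h] at hlt
        omega
      simp [hi, hj]
  have hbt : BlockTriangular (Z A r f) (fun v => OrderDual.toDual (d v)) := by
    intro i j hij
    have hij' : d i < d j := by
      simpa using hij
    apply hoff i j _ hij'.le
    rintro rfl
    omega
  rw [hbt.det]
  apply Finset.prod_eq_one
  intro a _
  have : (Z A r f).toSquareBlock (fun v => OrderDual.toDual (d v)) a = 1 := by
    ext ⟨i, hi⟩ ⟨j, hj⟩
    simp only [toSquareBlock_def, of_apply, one_apply, Subtype.mk.injEq]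
    by_cases hij : i = j
    · subst hij
      simp [hdiag]
    · rw [if_neg hij]
      apply hoff i j hij
      have h1 : OrderDual.toDual (d i) = OrderDual.toDual (d j) := by rw [hi, hj]
      have h2 : d i = d j := by simpa using h1
      omega
  rw [this, det_one]

lemma det_Z_of_not_int {r : V} {f : V → V} (hr : f r = r) (h : ¬ Acyc r f) :
    (Z ℤ r f).det = 0 := by
  classical
  have hex : ¬ ∀ v, ∃ n : ℕ, f^[n] v = r := fun h' => h (acyc_of_reach h')
  push Not at hex
  obtain ⟨v0, hv0⟩ := hex
  rw [← Matrix.exists_mulVec_eq_zero_iff]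
  refine ⟨fun v => if (∀ n : ℕ, f^[n] v ≠ r) then 1 else 0, ?_, ?_⟩
  · intro h0
    have := congrFun h0 v0
    simp [hv0] at this
  · ext i
    have hC : (∀ n : ℕ, f^[n] (f i) ≠ r) ↔ (∀ n : ℕ, f^[n] i ≠ r) := by
      constructor
      · intro h1 n
        rcases n with _ | n
        · intro h2
          simp only [Function.iterate_zero, id_eq] at h2
          apply h1 0
          simp [h2, hr]
        · rw [Function.iterate_succ_apply]
          exact h1 n
      · intro h1 n
        have := h1 (n + 1)
        rwa [Function.iterate_succ_apply] at this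
    simp only [mulVec, dotProduct, Z, Pi.zero_apply]
    by_cases hi : i = r
    · subst hi
      simp only [if_true, ite_mul, one_mul, zero_mul, Finset.sum_ite_eq', Finset.mem_univ]
      rw [if_neg]
      push Not
      exact ⟨0, rfl⟩
    · simp only [if_neg hi, sub_mul, ite_mul, one_mul, zero_mul, Finset.sum_sub_distrib,
        Finset.sum_ite_eq', Finset.mem_univ, if_true]
      by_cases hc : (∀ n : ℕ, f^[n] i ≠ r)
      · rw [if_pos hc, if_pos (hC.2 hc)]
        simp
      · rw [if_neg hc, if_neg (fun h => hc (hC.1 h))]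
        simp

lemma det_Z_of_not {r : V} {f : V → V} (hr : f r = r) (h : ¬ Acyc r f) : (Z A r f).det = 0 := by
  have h1 : Z A r f = (Z ℤ r f).map (Int.castRingHom A) := by
    ext i j
    rw [Matrix.map_apply]
    change (if i = r then (if j = r then 1 else 0)
      else (if j = i then 1 else 0) - (if j = f i then 1 else 0) : A) =
      Int.castRingHom A (if i = r then (if j = r then 1 else 0)
      else (if j = i then 1 else 0) - (if j = f i then 1 else 0) : ℤ)
    split_ifs <;> simp
  have h2 := (Int.castRingHom A).map_det (Z ℤ r f)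
  rw [det_Z_of_not_int hr h, map_zero] at h2
  rw [h1]
  exact h2.symm

/-- the reduced matrix with row `r` replaced by `e_r`. -/
def Mr (r : V) (w : V → V → A) : Matrix V V A := fun i j =>
  if i = r then (if j = r then 1 else 0)
  else (if j = i then ∑ x, w i x else 0) - w i j

open Classical in
theorem det_Mr (r : V) (w : V → V → A) :
    (Mr r w).det = ∑ f ∈ (Finset.univ : Finset (V → V)).filter (fun f => f r = r ∧ Acyc r f),
      ∏ i ∈ Finset.univ.erase r, w i (f i) := by
  set c : V → V → A := fun i x => if i = r then (if x = r then 1 else 0) else w i x with hc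
  set Zr : V → V → (V → A) := fun i x j =>
    if i = r then (if j = r then 1 else 0)
    else (if j = i then 1 else 0) - (if j = x then 1 else 0) with hZr
  have hrows : (Mr r w) = Matrix.of (fun i => ∑ x, c i x • Zr i x) := by
    ext i j
    simp only [Mr, hc, hZr, of_apply, Finset.sum_apply, Pi.smul_apply, smul_eq_mul]
    by_cases hi : i = r
    · simp [hi]
    · simp only [if_neg hi]
      by_cases hj : j = i
      · simp [hj, mul_sub, Finset.sum_sub_distrib]
      · simp [hj]
  have h1 : (Mr r w).det = Matrix.detRowAlternating (fun i => ∑ x, c i x • Zr i x) := by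
    rw [hrows]
    rfl
  rw [h1]
  have h2 : Matrix.detRowAlternating (fun i => ∑ x, c i x • Zr i x) =
      ∑ f : V → V, Matrix.detRowAlternating (fun i => c i (f i) • Zr i (f i)) := by
    exact (Matrix.detRowAlternating (n := V) (R := A)).toMultilinearMap.map_sum
      (fun i x => c i x • Zr i x)
  rw [h2]
  have h3 : ∀ f : V → V, Matrix.detRowAlternating (fun i => c i (f i) • Zr i (f i)) =
      (∏ i, c i (f i)) * (Z A r f).det := by
    intro f
    have := (Matrix.detRowAlternating (n := V) (R := A)).toMultilinearMap.map_smul_univ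
      (fun i => c i (f i)) (fun i => Zr i (f i))
    rw [smul_eq_mul] at this
    exact this
  rw [Finset.sum_congr rfl (fun f _ => h3 f)]
  rw [Finset.sum_filter]
  apply Finset.sum_congr rfl
  intro f _
  have h4 : (∏ i, c i (f i)) = (if f r = r then 1 else 0) * ∏ i ∈ Finset.univ.erase r, w i (f i) := by
    rw [← Finset.mul_prod_erase Finset.univ (fun i => c i (f i)) (Finset.mem_univ r)]
    congr 1
    · simp [hc]
    · apply Finset.prod_congr rfl
      intro i hi
      have : i ≠ r := (Finset.mem_erase.1 hi).1
      simp [hc, this]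
  rw [h4]
  by_cases hr : f r = r
  · by_cases ha : Acyc r f
    · rw [if_pos hr, if_pos ⟨hr, ha⟩, det_Z_of_acyc ha]
      ring
    · rw [if_pos hr, if_neg (fun h => ha h.2), det_Z_of_not hr ha]
      ring
  · rw [if_neg hr, if_neg (fun h => hr h.1)]
    ring


/-- edge set of a rooted functional graph. -/
def Tf (r : V) (f : V → V) : Finset (Sym2 V) := (Finset.univ.erase r).image (fun i => s(i, f i))

lemma Tf_injOn {r : V} {f : V → V} (h : Acyc r f) :
    Set.InjOn (fun i => s(i, f i)) ((Finset.univ.erase r : Finset V) : Set V) := by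
  obtain ⟨d, hd⟩ := h
  intro i hi j hj hij
  have hi' : i ≠ r := by simpa using hi
  have hj' : j ≠ r := by simpa using hj
  simp only [Sym2.eq_iff] at hij
  rcases hij with ⟨h1, _⟩ | ⟨h1, h2⟩
  · exact h1
  · exfalso
    have a1 := hd i hi'
    have a2 := hd j hj'
    rw [h2] at a1
    rw [← h1] at a2
    omega

lemma Tf_nodiag {r : V} {f : V → V} (h : Acyc r f) : ∀ e ∈ Tf r f, ¬ e.IsDiag := by
  obtain ⟨d, hd⟩ := h
  intro e he
  simp only [Tf, Finset.mem_image, Finset.mem_erase, Finset.mem_univ, and_true] at he
  obtain ⟨i, hi, rfl⟩ := he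
  intro hdiag
  have h1 : i = f i := by simpa using hdiag
  have h2 := hd i hi
  rw [← h1] at h2
  omega

lemma Tf_card {r : V} {f : V → V} (h : Acyc r f) : (Tf r f).card + 1 = Fintype.card V := by
  unfold Tf
  rw [Finset.card_image_of_injOn (Tf_injOn h), Finset.card_erase_of_mem (Finset.mem_univ r),
    Finset.card_univ]
  have : 0 < Fintype.card V := Fintype.card_pos_iff.2 ⟨r⟩
  omega

lemma Tf_tree {r : V} {f : V → V} (h : Acyc r f) :
    (SimpleGraph.fromEdgeSet ((Tf r f : Finset (Sym2 V)) : Set (Sym2 V))).IsTree := by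
  rw [SimpleGraph.isTree_iff_connected_and_card]
  constructor
  · obtain ⟨d, hd⟩ := h
    have key : ∀ n : ℕ, ∀ v : V, d v = n →
        (SimpleGraph.fromEdgeSet ((Tf r f : Finset (Sym2 V)) : Set (Sym2 V))).Reachable v r := by
      intro n
      induction n using Nat.strong_induction_on with
      | _ n ih =>
        intro v hv
        by_cases hvr : v = r
        · rw [hvr]
        · have h1 := hd v hvr
          have h2 := ih (d (f v)) (by omega) (f v) rfl
          refine SimpleGraph.Reachable.trans (SimpleGraph.Adj.reachable ?_) h2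
          rw [SimpleGraph.fromEdgeSet_adj]
          refine ⟨?_, ?_⟩
          · simp only [Tf, Finset.coe_image, Set.mem_image]
            exact ⟨v, by simpa using hvr, rfl⟩
          · intro h3
            rw [← h3] at h1
            omega
    have : Nonempty V := ⟨r⟩
    refine SimpleGraph.Connected.mk ?_
    intro u v
    exact (key _ u rfl).trans (key _ v rfl).symm
  · have h1 : (SimpleGraph.fromEdgeSet ((Tf r f : Finset (Sym2 V)) : Set (Sym2 V))).edgeSet =
        ((Tf r f : Finset (Sym2 V)) : Set (Sym2 V)) := by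
      rw [SimpleGraph.edgeSet_fromEdgeSet]
      ext e
      simp only [Set.mem_sdiff, Finset.mem_coe, Sym2.mem_diagSet]
      constructor
      · exact fun h => h.1
      · exact fun he => ⟨he, Tf_nodiag h e he⟩
    rw [h1, Nat.card_eq_fintype_card, Nat.card_eq_fintype_card, ← Tf_card h]
    simp

lemma Tf_inj {r : V} {f g : V → V} (hf : f r = r) (hg : g r = r) (haf : Acyc r f)
    (h : Tf r f = Tf r g) : f = g := by
  obtain ⟨d, hd⟩ := haf
  have key : ∀ n : ℕ, ∀ v : V, d v = n → f v = g v := by
    intro n
    induction n using Nat.strong_induction_on with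
    | _ n ih =>
      intro v hv
      by_cases hvr : v = r
      · rw [hvr, hf, hg]
      · by_contra hne
        have h1 : s(v, f v) ∈ Tf r g := by
          rw [← h]
          simp only [Tf, Finset.mem_image, Finset.mem_erase, Finset.mem_univ, and_true]
          exact ⟨v, hvr, rfl⟩
        simp only [Tf, Finset.mem_image, Finset.mem_erase, Finset.mem_univ, and_true] at h1
        obtain ⟨j, hj, hjv⟩ := h1
        rw [Sym2.eq_iff] at hjv
        rcases hjv with ⟨h2, h3⟩ | ⟨h2, h3⟩
        · rw [h2] at h3
          exact hne h3.symm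
        · -- j = f v, g j = v
          have h4 := hd v hvr
          have h5 := ih (d (f v)) (by omega) (f v) rfl
          rw [← h2, h3] at h5
          have h6 := hd j hj
          rw [h5, h2] at h6
          omega
  funext v
  exact key _ v rfl

lemma Tf_surj (r : V) (T : Finset (Sym2 V))
    (hT : (SimpleGraph.fromEdgeSet (T : Set (Sym2 V))).IsTree)
    (hnd : ∀ e ∈ T, ¬ e.IsDiag) : ∃ f : V → V, f r = r ∧ Acyc r f ∧ Tf r f = T := by
  classical
  set G := SimpleGraph.fromEdgeSet (T : Set (Sym2 V)) with hG
  have hconn := hT.connected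
  have hstep : ∀ v : V, v ≠ r → ∃ u : V, G.Adj v u ∧ G.dist u r < G.dist v r := by
    intro v hv
    obtain ⟨p, hp⟩ := hconn.exists_walk_length_eq_dist v r
    cases p with
    | nil => exact absurd rfl hv
    | cons hadj q =>
      refine ⟨_, hadj, ?_⟩
      have h1 := SimpleGraph.dist_le q
      rw [SimpleGraph.Walk.length_cons] at hp
      omega
  choose! f hfadj hfdist using hstep
  set g : V → V := fun v => if v = r then r else f v with hgdef
  have hgr : g r = r := by simp [hgdef]
  have hac : Acyc r g := by
    refine ⟨fun v => G.dist v r, ?_⟩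
    intro v hv
    simp only [hgdef, if_neg hv]
    exact hfdist v hv
  refine ⟨g, hgr, hac, ?_⟩
  have hsub : Tf r g ⊆ T := by
    intro e he
    simp only [Tf, Finset.mem_image, Finset.mem_erase, Finset.mem_univ, and_true] at he
    obtain ⟨i, hi, rfl⟩ := he
    have h1 := hfadj i hi
    rw [hG, SimpleGraph.fromEdgeSet_adj] at h1
    simp only [hgdef, if_neg hi]
    exact_mod_cast h1.1
  apply Finset.eq_of_subset_of_card_le hsub
  have h1 := (SimpleGraph.isTree_iff_connected_and_card.1 hT).2
  have h2 : G.edgeSet = (T : Set (Sym2 V)) := by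
    rw [hG, SimpleGraph.edgeSet_fromEdgeSet]
    ext e
    simp only [Set.mem_sdiff, Finset.mem_coe, Sym2.mem_diagSet]
    constructor
    · exact fun h => h.1
    · exact fun he => ⟨he, hnd e he⟩
  rw [h2, Nat.card_eq_fintype_card] at h1
  have h3 := Tf_card hac
  rw [Nat.card_eq_fintype_card] at h1
  have h4 : Fintype.card ((T : Finset (Sym2 V)) : Set (Sym2 V)) = T.card := by simp
  omega

open Classical in
theorem sum_Tf (r : V) (w : Sym2 V → A) (hw : ∀ e : Sym2 V, e.IsDiag → w e = 0) :
    ∑ f ∈ (Finset.univ : Finset (V → V)).filter (fun f => f r = r ∧ Acyc r f),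
      ∏ i ∈ Finset.univ.erase r, w s(i, f i) =
    ∑ T ∈ (Finset.univ : Finset (Finset (Sym2 V))).filter
      (fun T : Finset (Sym2 V) => (SimpleGraph.fromEdgeSet (T : Set (Sym2 V))).IsTree), ∏ e ∈ T, w e := by
  have h1 : ∑ T ∈ (Finset.univ : Finset (Finset (Sym2 V))).filter
      (fun T : Finset (Sym2 V) => (SimpleGraph.fromEdgeSet (T : Set (Sym2 V))).IsTree), ∏ e ∈ T, w e =
      ∑ T ∈ (Finset.univ : Finset (Finset (Sym2 V))).filter
      (fun T : Finset (Sym2 V) => (SimpleGraph.fromEdgeSet (T : Set (Sym2 V))).IsTree ∧ ∀ e ∈ T, ¬ e.IsDiag),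
        ∏ e ∈ T, w e := by
    symm
    apply Finset.sum_subset
    · intro T hT
      simp only [Finset.mem_filter, Finset.mem_univ, true_and] at hT ⊢
      exact hT.1
    · intro T hT hT2
      simp only [Finset.mem_filter, Finset.mem_univ, true_and] at hT hT2
      have : ¬ ∀ e ∈ T, ¬ e.IsDiag := fun h => hT2 ⟨hT, h⟩
      push Not at this
      obtain ⟨e, he, hed⟩ := this
      exact Finset.prod_eq_zero he (hw e hed)
  rw [h1]
  refine Finset.sum_bij (fun f _ => Tf r f) ?_ ?_ ?_ ?_
  · intro f hf
    simp only [Finset.mem_filter, Finset.mem_univ, true_and] at hf ⊢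
    exact ⟨Tf_tree hf.2, Tf_nodiag hf.2⟩
  · intro f hf g hg hfg
    simp only [Finset.mem_filter, Finset.mem_univ, true_and] at hf hg
    exact Tf_inj hf.1 hg.1 hf.2 hfg
  · intro T hT
    simp only [Finset.mem_filter, Finset.mem_univ, true_and] at hT
    obtain ⟨f, h1, h2, h3⟩ := Tf_surj r T hT.1 hT.2
    exact ⟨f, by simp [h1, h2], h3⟩
  · intro f hf
    simp only [Finset.mem_filter, Finset.mem_univ, true_and] at hf
    unfold Tf
    rw [Finset.prod_image (Tf_injOn hf.2)]


end Run7.h24.GH.MT
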