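import Mathlib

/-! Project GH (helper570): matrices for the piece PInc (helper24). -/

set_option autoImplicit false

namespace Run7.h24.GH

open Matrix

variable {K : Type} [Field K] {H N : Type} [Fintype H] [Fintype N] [DecidableEq H] [DecidableEq N]

/-- consequences of the kernel conditions -/
theorem fwd (M : Matrix (H ⊕ N) (H ⊕ N) K) (u : N → H ⊕ N → K) (E : Matrix (H ⊕ N) (H ⊕ N) K)
    (hE : ∀ h v, E (Sum.inl h) v = 0)
    (h0 : ∀ h h' : H, h ≠ h' → M (Sum.inl h) (Sum.inl h') = 0)
    (hu : ∀ n, M.mulVec (u n) = 0) (hd : ∀ n n', u n (Sum.inr n') = if n = n' then 1 else 0)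
    (hdet : (M + E).det ≠ 0) :
    (∀ h, M (Sum.inl h) (Sum.inl h) ≠ 0) ∧
    (∀ n h, u n (Sum.inl h) = - (M (Sum.inl h) (Sum.inr n) * (M (Sum.inl h) (Sum.inl h))⁻¹)) ∧
    ∀ n' n, M (Sum.inr n') (Sum.inr n) = ∑ h, M (Sum.inr n') (Sum.inl h) *
      (M (Sum.inl h) (Sum.inr n) * (M (Sum.inl h) (Sum.inl h))⁻¹) := by
  have hrow : ∀ n h, M (Sum.inl h) (Sum.inl h) * u n (Sum.inl h) + M (Sum.inl h) (Sum.inr n) = 0 := by
    intro n h
    have h1 := congrFun (hu n) (Sum.inl h)
    rw [mulVec, dotProduct, Fintype.sum_sum_type, Pi.zero_apply] at h1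
    rw [Finset.sum_eq_single h (fun h' _ hne => by rw [h0 h h' (Ne.symm hne), zero_mul])
      (fun hh => absurd (Finset.mem_univ _) hh),
      Finset.sum_eq_single n (fun n' _ hne => by rw [hd, if_neg (Ne.symm hne), mul_zero])
      (fun hh => absurd (Finset.mem_univ _) hh), hd, if_pos rfl, mul_one] at h1
    exact h1
  have hne : ∀ h, M (Sum.inl h) (Sum.inl h) ≠ 0 := by
    intro h hz
    apply hdet
    apply det_eq_zero_of_row_eq_zero (Sum.inl h)
    rintro (h' | n)
    · rw [Matrix.add_apply, hE, add_zero]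
      by_cases hh : h = h'
      · rw [← hh, hz]
      · exact h0 h h' hh
    · rw [Matrix.add_apply, hE, add_zero]
      have h1 := hrow n h
      rw [hz, zero_mul, zero_add] at h1
      exact h1
  have hu' : ∀ n h, u n (Sum.inl h) =
      - (M (Sum.inl h) (Sum.inr n) * (M (Sum.inl h) (Sum.inl h))⁻¹) := by
    intro n h
    have h1 := hrow n h
    have h2 := hne h
    field_simp
    linear_combination h1
  refine ⟨hne, hu', ?_⟩
  intro n' n
  have h1 := congrFun (hu n) (Sum.inr n')
  rw [mulVec, dotProduct, Fintype.sum_sum_type, Pi.zero_apply] at h1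
  rw [Finset.sum_eq_single (s := (Finset.univ : Finset N)) n
    (fun n'' _ hne => by rw [hd, if_neg (Ne.symm hne), mul_zero])
    (fun hh => absurd (Finset.mem_univ _) hh), hd, if_pos rfl, mul_one] at h1
  have h2 : ∑ h, M (Sum.inr n') (Sum.inl h) * u n (Sum.inl h) =
      - ∑ h, M (Sum.inr n') (Sum.inl h) *
      (M (Sum.inl h) (Sum.inr n) * (M (Sum.inl h) (Sum.inl h))⁻¹) := by
    rw [← Finset.sum_neg_distrib]
    exact Finset.sum_congr rfl (fun h _ => by rw [hu']; ring)
  rw [h2] at h1
  linear_combination h1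

/-- the matrix with the blocks `a`, `B` and the complement `0` -/
def Mg (a : H → K) (B : H → N → K) : Matrix (H ⊕ N) (H ⊕ N) K := fun v v' =>
  match v, v' with
  | Sum.inl h, Sum.inl h' => if h = h' then a h else 0
  | Sum.inl h, Sum.inr n => B h n
  | Sum.inr n, Sum.inl h => B h n
  | Sum.inr n, Sum.inr n' => ∑ h, B h n * (B h n' * (a h)⁻¹)

/-- the kernel vectors -/
def ug (a : H → K) (B : H → N → K) (n : N) : H ⊕ N → K := fun v =>
  match v with
  | Sum.inl h => - (B h n * (a h)⁻¹)
  | Sum.inr n' => if n = n' then 1 else 0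

theorem Mg_ug (a : H → K) (B : H → N → K) (ha : ∀ h, a h ≠ 0) (n : N) :
    (Mg a B).mulVec (ug a B n) = 0 := by
  funext v
  rw [mulVec, dotProduct, Fintype.sum_sum_type, Pi.zero_apply]
  rcases v with h | n'
  · simp only [Mg, ug]
    rw [Finset.sum_eq_single h (fun h' _ hne => by rw [if_neg (Ne.symm hne), zero_mul])
      (fun hh => absurd (Finset.mem_univ _) hh),
      Finset.sum_eq_single n (fun n' _ hne => by rw [if_neg (Ne.symm hne), mul_zero])
      (fun hh => absurd (Finset.mem_univ _) hh), if_pos rfl, if_pos rfl]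
    have h2 := ha h
    field_simp
    ring
  · simp only [Mg, ug]
    rw [Finset.sum_eq_single (s := (Finset.univ : Finset N)) n
      (fun n' _ hne => by rw [if_neg (Ne.symm hne), mul_zero])
      (fun hh => absurd (Finset.mem_univ _) hh), if_pos rfl, mul_one, ← Finset.sum_add_distrib]
    exact Finset.sum_eq_zero (fun h _ => by ring)

theorem Mg_det (a : H → K) (B : H → N → K) (ha : ∀ h, a h ≠ 0) (E : Matrix (H ⊕ N) (H ⊕ N) K)
    (hE : E = fromBlocks 0 0 0 1) : (Mg a B + E).det ≠ 0 := by
  intro hdet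
  obtain ⟨w, hw0, hw⟩ := Matrix.exists_mulVec_eq_zero_iff.2 hdet
  apply hw0
  have h1 : ∀ h, a h * w (Sum.inl h) + ∑ n, B h n * w (Sum.inr n) = 0 := by
    intro h
    have := congrFun hw (Sum.inl h)
    rw [mulVec, dotProduct, Fintype.sum_sum_type, Pi.zero_apply] at this
    simp only [Matrix.add_apply, hE, fromBlocks_apply₁₁, fromBlocks_apply₁₂, Matrix.zero_apply,
      add_zero, Mg] at this
    rw [Finset.sum_eq_single h (fun h' _ hne => by rw [if_neg (Ne.symm hne), zero_mul])
      (fun hh => absurd (Finset.mem_univ _) hh), if_pos rfl] at this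
    exact this
  have h2 : ∀ n, w (Sum.inr n) = 0 := by
    intro n
    have := congrFun hw (Sum.inr n)
    rw [mulVec, dotProduct, Fintype.sum_sum_type, Pi.zero_apply] at this
    simp only [Matrix.add_apply, hE, fromBlocks_apply₂₁, fromBlocks_apply₂₂, Matrix.zero_apply,
      add_zero, Mg, add_mul, Finset.sum_add_distrib] at this
    have h3 : ∑ n', (∑ h, B h n * (B h n' * (a h)⁻¹)) * w (Sum.inr n') =
        - ∑ h, B h n * w (Sum.inl h) := by
      simp_rw [Finset.sum_mul]
      rw [Finset.sum_comm, ← Finset.sum_neg_distrib]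
      refine Finset.sum_congr rfl (fun h _ => ?_)
      have h4 : ∑ n', B h n * (B h n' * (a h)⁻¹) * w (Sum.inr n') =
          B h n * (a h)⁻¹ * ∑ n', B h n' * w (Sum.inr n') := by
        rw [Finset.mul_sum]
        exact Finset.sum_congr rfl (fun n' _ => by ring)
      rw [h4]
      have h5 : ∑ n', B h n' * w (Sum.inr n') = - (a h * w (Sum.inl h)) := by
        linear_combination h1 h
      rw [h5]
      have h6 := ha h
      field_simp
    rw [h3] at this
    have h7 : ∑ n', (1 : Matrix N N K) n n' * w (Sum.inr n') = w (Sum.inr n) := by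
      rw [Finset.sum_eq_single n (fun n' _ hne => by rw [Matrix.one_apply_ne (Ne.symm hne), zero_mul])
        (fun hh => absurd (Finset.mem_univ _) hh), Matrix.one_apply_eq, one_mul]
    rw [h7] at this
    linear_combination this
  funext v
  rcases v with h | n
  · have h3 := h1 h
    simp only [h2, mul_zero, Finset.sum_const_zero, add_zero] at h3
    exact (mul_eq_zero.1 h3).resolve_left (ha h)
  · exact h2 n

end Run7.h24.GH
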