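import Pool.Agent.Run7.h24.GH.Rg
import Pool.Agent.Run7.h24.GH.Mat

/-! Project GH (helper570), piece PInc (helper24). -/

set_option autoImplicit false

open CategoryTheory AlgebraicGeometry MvPolynomial Pool.Agent.Y116.UV Pool.Agent.Z125.UN
  Pool.Agent.Q282.UZ

namespace Run7.h24.GH

open Run7.h570.GH

section

variable {I J H : Type} (sI : I → H → Prop) (sJ : J → H → Prop) (Ω : I → J → Prop)

/-- the adjacency relation -/
def adjI : H ⊕ (I ⊕ J) → H ⊕ (I ⊕ J) → Prop
  | Sum.inl _, Sum.inl _ => False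
  | Sum.inl h, Sum.inr (Sum.inl i) => sI i h
  | Sum.inl h, Sum.inr (Sum.inr j) => sJ j h
  | Sum.inr (Sum.inl i), Sum.inl h => sI i h
  | Sum.inr (Sum.inr j), Sum.inl h => sJ j h
  | Sum.inr (Sum.inl i), Sum.inr (Sum.inl i') => i ≠ i'
  | Sum.inr (Sum.inr j), Sum.inr (Sum.inr j') => j ≠ j'
  | Sum.inr (Sum.inl i), Sum.inr (Sum.inr j) => ¬ Ω i j
  | Sum.inr (Sum.inr j), Sum.inr (Sum.inl i) => ¬ Ω i j

/-- the graph -/
def gI : SimpleGraph (H ⊕ (I ⊕ J)) where
  Adj := adjI sI sJ Ω
  symm := ⟨by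
    rintro (h | i | j) (h' | i' | j') hh
    · exact hh
    · exact hh
    · exact hh
    · exact hh
    · exact Ne.symm hh
    · exact hh
    · exact hh
    · exact hh
    · exact Ne.symm hh⟩
  loopless := ⟨by
    rintro (h | i | j) hh
    · exact hh
    · exact hh rfl
    · exact hh rfl⟩

end

theorem t_PInc : PInc := by
  intro R _ P hK hCo I J H _ _ _ sI sJ Ω
  classical
  set eC := Fintype.equivFin (I ⊕ J) with heC
  let C : Fin (Fintype.card (I ⊕ J)) → H ⊕ (I ⊕ J) := fun b => Sum.inr (eC.symm b)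
  have hC : Function.Injective C := fun b b' h => eC.symm.injective (Sum.inr_injective h)
  let G : SimpleGraph (H ⊕ (I ⊕ J)) := gI sI sJ Ω
  let S := CoFam R G C
  let T : Fam R (((I × H) ⊕ (J × H)) ⊕ H) := fun K _ _ x =>
    IncFam R sI sJ Ω K (fun s => x (Sum.inl s)) ∧ ∀ h, x (Sum.inr h) ≠ 0
  have hS : Q P S := hCo G C hC
  have hind : ∀ (K : Type) [Field K], (ind C : Matrix (H ⊕ (I ⊕ J)) (H ⊕ (I ⊕ J)) K) =
      Matrix.fromBlocks 0 0 0 1 := by
    intro K _
    ext v v'
    rcases v with h | n <;> rcases v' with h' | n'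
    · unfold ind
      by_cases hh : h = h'
      · subst hh
        rw [Matrix.diagonal_apply_eq, Matrix.fromBlocks_apply₁₁, Matrix.zero_apply, if_neg]
        rintro ⟨b, hb⟩
        exact absurd hb (by simp [C])
      · rw [Matrix.diagonal_apply_ne _ (fun h => hh (Sum.inl_injective h)),
          Matrix.fromBlocks_apply₁₁, Matrix.zero_apply]
    · unfold ind
      rw [Matrix.diagonal_apply_ne _ (by simp), Matrix.fromBlocks_apply₁₂, Matrix.zero_apply]
    · unfold ind
      rw [Matrix.diagonal_apply_ne _ (by simp), Matrix.fromBlocks_apply₂₁, Matrix.zero_apply]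
    · unfold ind
      by_cases hh : n = n'
      · subst hh
        rw [Matrix.diagonal_apply_eq, Matrix.fromBlocks_apply₂₂, Matrix.one_apply_eq, if_pos]
        exact ⟨eC n, by simp [C]⟩
      · rw [Matrix.diagonal_apply_ne _ (fun h => hh (Sum.inr_injective h)),
          Matrix.fromBlocks_apply₂₂, Matrix.one_apply_ne hh]
  -- consequences on S
  have hfwd : ∀ (K : Type) [Field K] [Algebra R K]
      (x : ((H ⊕ (I ⊕ J)) × (H ⊕ (I ⊕ J))) ⊕ (Fin (Fintype.card (I ⊕ J)) × (H ⊕ (I ⊕ J))) → K),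
      S K x →
      (∀ h, x (Sum.inl (Sum.inl h, Sum.inl h)) ≠ 0) ∧
      (∀ n h, x (Sum.inr (eC n, Sum.inl h)) = - (x (Sum.inl (Sum.inl h, Sum.inr n)) *
        (x (Sum.inl (Sum.inl h, Sum.inl h)))⁻¹)) ∧
      (∀ n' n, x (Sum.inl (Sum.inr n', Sum.inr n)) = ∑ h, x (Sum.inl (Sum.inr n', Sum.inl h)) *
        (x (Sum.inl (Sum.inl h, Sum.inr n)) * (x (Sum.inl (Sum.inl h, Sum.inl h)))⁻¹)) ∧
      (∀ v v', x (Sum.inl (v, v')) = x (Sum.inl (v', v))) ∧
      (∀ v v', v ≠ v' → ¬ G.Adj v v' → x (Sum.inl (v, v')) = 0) ∧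
      (∀ n n', x (Sum.inr (eC n, Sum.inr n')) = if n = n' then 1 else 0) := by
    intro K _ _ x hx
    obtain ⟨⟨hsym, hpat⟩, hu, hd, hdet⟩ := hx
    have hd' : ∀ n n' : I ⊕ J, (fun n => vc x (eC n)) n (Sum.inr n') = if n = n' then 1 else 0 := by
      intro n n'
      have h1 := hd (eC n) (eC n')
      simp only [C, Equiv.symm_apply_apply] at h1
      change vc x (eC n) (Sum.inr n') = _
      rw [h1]
      by_cases hnn : n = n'
      · rw [if_pos hnn, if_pos (by rw [hnn])]
      · rw [if_neg hnn, if_neg (fun h => hnn (eC.injective h))]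
    have h0 : ∀ h h' : H, h ≠ h' → mt x (Sum.inl h) (Sum.inl h') = 0 := fun h h' hne =>
      hpat _ _ (fun hh => hne (Sum.inl_injective hh)) (fun hh => hh)
    have hE : ∀ (h : H) (v : H ⊕ (I ⊕ J)), (ind C : Matrix (H ⊕ (I ⊕ J)) (H ⊕ (I ⊕ J)) K)
        (Sum.inl h) v = 0 := by
      intro h v
      rw [hind K]
      rcases v with h' | n
      · rw [Matrix.fromBlocks_apply₁₁, Matrix.zero_apply]
      · rw [Matrix.fromBlocks_apply₁₂, Matrix.zero_apply]
    obtain ⟨h1, h2, h3⟩ := fwd (mt x) (fun n => vc x (eC n)) (ind C) hE h0 (fun n => hu (eC n))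
      hd' hdet
    exact ⟨h1, h2, h3, hsym, hpat, hd'⟩
  -- the matrix B of a point of T
  let Bf : ∀ (K : Type) [Field K], ((((I × H) ⊕ (J × H)) ⊕ H) → K) → H → I ⊕ J → K :=
    fun K _ y h n => match n with
      | Sum.inl i => y (Sum.inr h) * y (Sum.inl (Sum.inl (i, h)))
      | Sum.inr j => y (Sum.inl (Sum.inr (j, h)))
  let f : ∀ (K : Type) [Field K] [Algebra R K],
      (((H ⊕ (I ⊕ J)) × (H ⊕ (I ⊕ J))) ⊕ (Fin (Fintype.card (I ⊕ J)) × (H ⊕ (I ⊕ J))) → K) →
      ((((I × H) ⊕ (J × H)) ⊕ H) → K) := fun K _ _ x t => match t with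
      | Sum.inl (Sum.inl (i, h)) => x (Sum.inl (Sum.inr (Sum.inl i), Sum.inl h)) *
          (x (Sum.inl (Sum.inl h, Sum.inl h)))⁻¹
      | Sum.inl (Sum.inr (j, h)) => x (Sum.inl (Sum.inr (Sum.inr j), Sum.inl h))
      | Sum.inr h => x (Sum.inl (Sum.inl h, Sum.inl h))
  let g : ∀ (K : Type) [Field K] [Algebra R K], ((((I × H) ⊕ (J × H)) ⊕ H) → K) →
      (((H ⊕ (I ⊕ J)) × (H ⊕ (I ⊕ J))) ⊕ (Fin (Fintype.card (I ⊕ J)) × (H ⊕ (I ⊕ J))) → K) :=
      fun K _ _ y s => match s with
      | Sum.inl (v, v') => Mg (fun h => y (Sum.inr h)) (Bf K y) v v'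
      | Sum.inr (b, v) => ug (fun h => y (Sum.inr h)) (Bf K y) (eC.symm b) v
  have hfr : ∀ t, Rg S fun K _ _ x => f K x t := by
    rintro ((⟨i, h⟩ | ⟨j, h⟩) | h)
    · exact rg_mul (rg_var _) (rg_inv _ (fun K _ _ x hx => (hfwd K x hx).1 h))
    · exact rg_var _
    · exact rg_var _
  have hBr : ∀ h n, Rg T fun K _ _ y => Bf K y h n := by
    intro h n
    rcases n with i | j
    · exact rg_mul (rg_var _) (rg_var _)
    · exact rg_var _
  have har : ∀ h, Rg T fun K _ _ y => (y (Sum.inr h))⁻¹ := fun h =>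
    rg_inv _ (fun K _ _ y hy => hy.2 h)
  have hgr : ∀ s, Rg T fun K _ _ y => g K y s := by
    rintro (⟨h | n, h' | n'⟩ | ⟨b, h | n⟩)
    · by_cases hh : h = h'
      · exact rg_congr (rg_var (Sum.inr h)) (fun K _ _ y _ => by
          change (if h = h' then y (Sum.inr h) else 0) = _
          rw [if_pos hh])
      · exact rg_congr rg_zero (fun K _ _ y _ => by
          change (if h = h' then y (Sum.inr h) else 0) = _
          rw [if_neg hh])
    · exact hBr h n'
    · exact hBr h' n
    · exact rg_sum Finset.univ (fun h K _ _ y => Bf K y h n * (Bf K y h n' * (y (Sum.inr h))⁻¹))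
        (fun h => rg_mul (hBr h n) (rg_mul (hBr h n') (har h)))
    · exact rg_neg (rg_mul (hBr h _) (har h))
    · by_cases hh : eC.symm b = n
      · exact rg_congr rg_one (fun K _ _ y _ => by
          change (if eC.symm b = n then (1 : K) else 0) = _
          rw [if_pos hh])
      · exact rg_congr rg_zero (fun K _ _ y _ => by
          change (if eC.symm b = n then (1 : K) else 0) = _
          rw [if_neg hh])
  have hfT : ∀ (K : Type) [Field K] [Algebra R K] x, S K x → T K (f K x) := by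
    intro K _ _ x hx
    obtain ⟨h1, h2, h3, h4, h5, h6⟩ := hfwd K x hx
    refine ⟨⟨?_, ?_, ?_⟩, h1⟩
    · intro i h hs
      change x (Sum.inl (Sum.inr (Sum.inl i), Sum.inl h)) * _ = 0
      rw [h5 (Sum.inr (Sum.inl i)) (Sum.inl h) (by simp) hs, zero_mul]
    · intro j h hs
      exact h5 (Sum.inr (Sum.inr j)) (Sum.inl h) (by simp) hs
    · intro i j hij
      have h7 := h3 (Sum.inl i) (Sum.inr j)
      rw [h5 (Sum.inr (Sum.inl i)) (Sum.inr (Sum.inr j)) (by simp) (fun hh => hh hij)] at h7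
      rw [h7]
      refine Finset.sum_congr rfl (fun h _ => ?_)
      change x (Sum.inl (Sum.inr (Sum.inl i), Sum.inl h)) *
          (x (Sum.inl (Sum.inl h, Sum.inl h)))⁻¹ * x (Sum.inl (Sum.inr (Sum.inr j), Sum.inl h)) = _
      rw [h4 (Sum.inr (Sum.inr j)) (Sum.inl h)]
      ring
  have hgS : ∀ (K : Type) [Field K] [Algebra R K] y, T K y → S K (g K y) := by
    intro K _ _ y hy
    obtain ⟨⟨t1, t2, t3⟩, t4⟩ := hy
    have hmt : mt (g K y) = Mg (fun h => y (Sum.inr h)) (Bf K y) := rfl
    have hvc : ∀ b, vc (g K y) b = ug (fun h => y (Sum.inr h)) (Bf K y) (eC.symm b) := fun b => rfl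
    have hsum : ∀ i j, Ω i j →
        ∑ h, y (Sum.inr h) * y (Sum.inl (Sum.inl (i, h))) * (y (Sum.inl (Sum.inr (j, h))) *
          (y (Sum.inr h))⁻¹) = 0 := by
      intro i j hij
      rw [← t3 i j hij]
      refine Finset.sum_congr rfl (fun h _ => ?_)
      have := t4 h
      field_simp
    refine ⟨⟨?_, ?_⟩, ?_, ?_, ?_⟩
    · rintro (h | n) (h' | n')
      · rw [hmt]
        simp only [Mg]
        by_cases hh : h = h'
        · rw [hh]
        · rw [if_neg hh, if_neg (Ne.symm hh)]
      · rfl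
      · rfl
      · rw [hmt]
        simp only [Mg]
        exact Finset.sum_congr rfl (fun h _ => by ring)
    · rintro (h | i | j) (h' | i' | j') hne hadj
      · rw [hmt]
        simp only [Mg]
        rw [if_neg (fun hh => hne (by rw [hh]))]
      · rw [hmt]
        change y (Sum.inr h) * y (Sum.inl (Sum.inl (i', h))) = 0
        have h9 : y (Sum.inl (Sum.inl (i', h))) = 0 := t1 i' h hadj
        rw [h9, mul_zero]
      · exact t2 j' h hadj
      · rw [hmt]
        change y (Sum.inr h') * y (Sum.inl (Sum.inl (i, h'))) = 0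
        have h9 : y (Sum.inl (Sum.inl (i, h'))) = 0 := t1 i h' hadj
        rw [h9, mul_zero]
      · exact absurd (fun hh => hne (by rw [hh])) hadj
      · rw [hmt]
        exact hsum i j' (not_not.1 hadj)
      · exact t2 j h' hadj
      · rw [hmt]
        have h1 := hsum i' j (not_not.1 hadj)
        rw [← h1]
        change ∑ h, y (Sum.inl (Sum.inr (j, h))) *
          (y (Sum.inr h) * y (Sum.inl (Sum.inl (i', h))) * (y (Sum.inr h))⁻¹) = _
        exact Finset.sum_congr rfl (fun h _ => by ring)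
      · exact absurd (fun hh => hne (by rw [hh])) hadj
    · intro b
      rw [hmt, hvc]
      exact Mg_ug _ _ t4 _
    · intro b b'
      rw [hvc]
      change (if eC.symm b = eC.symm b' then (1 : K) else 0) = _
      by_cases hh : b = b'
      · rw [hh, if_pos rfl, if_pos rfl]
      · rw [if_neg hh, if_neg (fun h => hh (eC.symm.injective h))]
    · rw [hmt]
      exact Mg_det _ _ t4 _ (hind K)
  have hgf : ∀ (K : Type) [Field K] [Algebra R K] x, S K x → g K (f K x) = x := by
    intro K _ _ x hx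
    obtain ⟨h1, h2, h3, h4, h5, h6⟩ := hfwd K x hx
    have hB : ∀ h n, Bf K (f K x) h n = x (Sum.inl (Sum.inl h, Sum.inr n)) := by
      intro h n
      rcases n with i | j
      · change x (Sum.inl (Sum.inl h, Sum.inl h)) *
          (x (Sum.inl (Sum.inr (Sum.inl i), Sum.inl h)) * (x (Sum.inl (Sum.inl h, Sum.inl h)))⁻¹) = _
        rw [h4 (Sum.inr (Sum.inl i)) (Sum.inl h)]
        have := h1 h
        field_simp
      · exact h4 (Sum.inr (Sum.inr j)) (Sum.inl h)
    funext s
    rcases s with ⟨h | n, h' | n'⟩ | ⟨b, h | n⟩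
    · change (if h = h' then x (Sum.inl (Sum.inl h, Sum.inl h)) else 0) = _
      by_cases hh : h = h'
      · rw [if_pos hh, hh]
      · rw [if_neg hh]
        exact (h5 _ _ (fun h => hh (Sum.inl_injective h)) (fun h => h)).symm
    · exact hB h n'
    · change Bf K (f K x) h' n = _
      rw [hB, h4]
    · change ∑ h, Bf K (f K x) h n * (Bf K (f K x) h n' * (x (Sum.inl (Sum.inl h, Sum.inl h)))⁻¹) = _
      rw [h3]
      refine Finset.sum_congr rfl (fun h _ => ?_)
      rw [hB, hB, h4 (Sum.inr n) (Sum.inl h)]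
    · change - (Bf K (f K x) h (eC.symm b) * (x (Sum.inl (Sum.inl h, Sum.inl h)))⁻¹) = _
      have h7 := h2 (eC.symm b) h
      rw [Equiv.apply_symm_apply] at h7
      rw [hB, h7]
    · change (if eC.symm b = n then (1 : K) else 0) = _
      have h7 := h6 (eC.symm b) n
      rw [Equiv.apply_symm_apply] at h7
      rw [h7]
  have hfg : ∀ (K : Type) [Field K] [Algebra R K] y, T K y → f K (g K y) = y := by
    intro K _ _ y hy
    obtain ⟨_, t4⟩ := hy
    have hdiag : ∀ h, g K y (Sum.inl (Sum.inl h, Sum.inl h)) = y (Sum.inr h) := by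
      intro h
      change (if h = h then y (Sum.inr h) else 0) = _
      rw [if_pos rfl]
    funext t
    rcases t with (⟨i, h⟩ | ⟨j, h⟩) | h
    · change y (Sum.inr h) * y (Sum.inl (Sum.inl (i, h))) *
        (g K y (Sum.inl (Sum.inl h, Sum.inl h)))⁻¹ = _
      rw [hdiag]
      have := t4 h
      field_simp
    · rfl
    · exact hdiag h
  -- a presentation of T
  let κ : Type := ((I × H) ⊕ (J × H)) ⊕ (I × J)
  let Gp : κ → MvPolynomial (((I × H) ⊕ (J × H)) ⊕ H) R := fun k => match k with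
    | Sum.inl (Sum.inl (i, h)) => if sI i h then 0 else X (Sum.inl (Sum.inl (i, h)))
    | Sum.inl (Sum.inr (j, h)) => if sJ j h then 0 else X (Sum.inl (Sum.inr (j, h)))
    | Sum.inr (i, j) => if Ω i j then ∑ h, X (Sum.inl (Sum.inl (i, h))) *
        X (Sum.inl (Sum.inr (j, h))) else 0
  let wp : MvPolynomial (((I × H) ⊕ (J × H)) ⊕ H) R := ∏ h, X (Sum.inr h)
  have hIs : Is T Gp wp := by
    intro K _ _ x
    have hw : aeval x wp ≠ 0 ↔ ∀ h, x (Sum.inr h) ≠ 0 := by
      simp only [wp, map_prod, aeval_X]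
      rw [Finset.prod_ne_zero_iff]
      simp
    rw [hw]
    refine and_congr_left (fun _ => ?_)
    constructor
    · rintro ⟨t1, t2, t3⟩ k
      rcases k with (⟨i, h⟩ | ⟨j, h⟩) | ⟨i, j⟩
      · change aeval x (if sI i h then (0 : MvPolynomial _ R) else X (Sum.inl (Sum.inl (i, h)))) = 0
        by_cases hs : sI i h
        · rw [if_pos hs, map_zero]
        · rw [if_neg hs, aeval_X]
          exact t1 i h hs
      · change aeval x (if sJ j h then (0 : MvPolynomial _ R) else X (Sum.inl (Sum.inr (j, h)))) = 0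
        by_cases hs : sJ j h
        · rw [if_pos hs, map_zero]
        · rw [if_neg hs, aeval_X]
          exact t2 j h hs
      · change aeval x (if Ω i j then ∑ h, X (Sum.inl (Sum.inl (i, h))) *
          X (Sum.inl (Sum.inr (j, h))) else (0 : MvPolynomial _ R)) = 0
        by_cases hs : Ω i j
        · rw [if_pos hs, map_sum]
          simp only [map_mul, aeval_X]
          exact t3 i j hs
        · rw [if_neg hs, map_zero]
    · intro hk
      refine ⟨?_, ?_, ?_⟩
      · intro i h hs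
        have h1 := hk (Sum.inl (Sum.inl (i, h)))
        change aeval x (if sI i h then (0 : MvPolynomial _ R) else
          X (Sum.inl (Sum.inl (i, h)))) = 0 at h1
        rw [if_neg hs, aeval_X] at h1
        exact h1
      · intro j h hs
        have h1 := hk (Sum.inl (Sum.inr (j, h)))
        change aeval x (if sJ j h then (0 : MvPolynomial _ R) else
          X (Sum.inl (Sum.inr (j, h)))) = 0 at h1
        rw [if_neg hs, aeval_X] at h1
        exact h1
      · intro i j hs
        have h1 := hk (Sum.inr (i, j))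
        change aeval x (if Ω i j then ∑ h, X (Sum.inl (Sum.inl (i, h))) *
          X (Sum.inl (Sum.inr (j, h))) else (0 : MvPolynomial _ R)) = 0 at h1
        rw [if_pos hs, map_sum] at h1
        simp only [map_mul, aeval_X] at h1
        exact h1
  have hT : Q P T := ⟨κ, Gp, wp, hIs, hK.iso S T f g hfr hgr hfT hgS hgf hfg hS Gp wp hIs⟩
  exact (hK.torus (IncFam R sI sJ Ω)).1 hT

end Run7.h24.GH
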