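import Pool.Agent.Run7.h570.GH.Iface
import Pool.Agent.Run7.h24.GH.MT

/-! Project GH (helper570), piece PTree: the weighted matrix-tree theorem (helper24). -/

set_option autoImplicit false

open MvPolynomial

namespace Run7.h24.GH

open Run7.h570.GH Run7.h24.GH.MT

/-- the variable of an edge, zero for a pair which is not an edge -/
noncomputable def wt (R : Type) [CommRing R] {n : ℕ} (Γ : SimpleGraph (Fin n)) (e : Sym2 (Fin n)) :
    MvPolynomial Γ.edgeSet R :=
  open Classical in if h : e ∈ Γ.edgeSet then X ⟨e, h⟩ else 0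

theorem ev_eq (R : Type) [CommRing R] {n : ℕ} (Γ : SimpleGraph (Fin n)) (u v : Fin n) :
    ev R Γ u v = wt R Γ s(u, v) := by
  unfold ev wt
  by_cases h : Γ.Adj u v
  · rw [dif_pos h, dif_pos (Γ.mem_edgeSet.2 h)]
  · rw [dif_neg h, dif_neg (fun h' => h (Γ.mem_edgeSet.1 h'))]

theorem wt_diag (R : Type) [CommRing R] {n : ℕ} (Γ : SimpleGraph (Fin n)) (e : Sym2 (Fin n))
    (he : e.IsDiag) : wt R Γ e = 0 := by
  unfold wt
  rw [dif_neg]
  intro h
  exact Γ.not_isDiag_of_mem_edgeSet h he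

theorem kirch_eq (R : Type) [CommRing R] {n : ℕ} (Γ : SimpleGraph (Fin (n + 1))) :
    kirch R Γ = (Mr (0 : Fin (n + 1)) (fun i j => wt R Γ s(i, j))).det := by
  rw [Matrix.det_succ_row_zero, Fin.sum_univ_succ]
  have h0 : ∀ j : Fin n, (-1 : MvPolynomial Γ.edgeSet R) ^ ((j.succ : Fin (n + 1)) : ℕ) *
      Mr (0 : Fin (n + 1)) (fun i j => wt R Γ s(i, j)) 0 j.succ *
      ((Mr (0 : Fin (n + 1)) (fun i j => wt R Γ s(i, j))).submatrix Fin.succ
        (j.succ.succAbove)).det = 0 := by
    intro j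
    have h1 : Mr (0 : Fin (n + 1)) (fun i j => wt R Γ s(i, j)) 0 j.succ = 0 := by
      unfold Mr
      rw [if_pos rfl, if_neg (Fin.succ_ne_zero j)]
    rw [h1]
    ring
  rw [Finset.sum_eq_zero (fun j _ => h0 j), add_zero]
  have h2 : Mr (0 : Fin (n + 1)) (fun i j => wt R Γ s(i, j)) 0 0 = 1 := by
    unfold Mr
    rw [if_pos rfl, if_pos rfl]
  rw [h2]
  simp only [Fin.val_zero, pow_zero, one_mul]
  unfold kirch
  congr 1
  ext1 i j
  rw [Matrix.of_apply, Matrix.submatrix_apply, Fin.zero_succAbove]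
  unfold Mr
  rw [if_neg (Fin.succ_ne_zero i)]
  by_cases hij : i = j
  · subst hij
    rw [if_pos rfl, if_pos rfl]
    change _ = ∑ x, wt R Γ s(i.succ, x) - wt R Γ s(i.succ, i.succ)
    rw [wt_diag R Γ s(i.succ, i.succ) (by simp), sub_zero]
    exact Finset.sum_congr rfl (fun v _ => ev_eq R Γ _ _)
  · rw [if_neg hij, if_neg (fun h => hij (Fin.succ_injective _ h).symm), zero_sub, ev_eq]

theorem t_PTree : PTree := by
  intro R _ n Γ
  classical
  rw [kirch_eq, det_Mr, sum_Tf (0 : Fin (n + 1)) (wt R Γ) (wt_diag R Γ)]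
  -- only the sets of edges contribute
  let emb : Finset Γ.edgeSet → Finset (Sym2 (Fin (n + 1))) := fun T =>
    T.map (Function.Embedding.subtype _)
  symm
  refine Finset.sum_bij_ne_zero (fun T _ _ => emb T) ?_ ?_ ?_ ?_
  · intro T hT _
    rw [Finset.mem_filter] at hT ⊢
    refine ⟨Finset.mem_univ _, ?_⟩
    have h1 : ((emb T : Finset (Sym2 (Fin (n + 1)))) : Set (Sym2 (Fin (n + 1)))) =
        Subtype.val '' (T : Set Γ.edgeSet) := by
      simp only [emb, Finset.coe_map]
      rfl
    rw [h1]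
    exact hT.2
  · intro T _ _ T' _ _ h
    exact Finset.map_injective _ h
  · intro T hT hne
    rw [Finset.mem_filter] at hT
    have hsub : ∀ e ∈ T, e ∈ Γ.edgeSet := by
      intro e he
      by_contra hcon
      apply hne
      refine Finset.prod_eq_zero he ?_
      unfold wt
      rw [dif_neg hcon]
    have hT' : emb (T.subtype (fun e => e ∈ Γ.edgeSet)) = T := by
      simp only [emb]
      rw [Finset.subtype_map]
      exact Finset.filter_true_of_mem hsub
    have h1 : ((emb (T.subtype (fun e => e ∈ Γ.edgeSet)) : Finset (Sym2 (Fin (n + 1)))) :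
        Set (Sym2 (Fin (n + 1)))) =
        Subtype.val '' ((T.subtype (fun e => e ∈ Γ.edgeSet) : Finset Γ.edgeSet) : Set Γ.edgeSet) := by
      simp only [emb, Finset.coe_map]
      rfl
    have h2 : ∏ e ∈ T.subtype (fun e => e ∈ Γ.edgeSet), (X e : MvPolynomial Γ.edgeSet R) =
        ∏ e ∈ T, wt R Γ e := by
      conv_rhs => rw [← hT']
      simp only [emb]
      rw [Finset.prod_map]
      refine Finset.prod_congr rfl (fun e _ => ?_)
      unfold wt
      rw [dif_pos (show ((Function.Embedding.subtype _) e : Sym2 (Fin (n + 1))) ∈ Γ.edgeSet from e.2)]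
      rfl
    refine ⟨T.subtype (fun e => e ∈ Γ.edgeSet), ?_, ?_, hT'⟩
    · rw [Finset.mem_filter]
      refine ⟨Finset.mem_univ _, ?_⟩
      rw [← h1, hT']
      exact hT.2
    · rw [h2]
      exact hne
  · intro T _ _
    simp only [emb]
    rw [Finset.prod_map]
    refine Finset.prod_congr rfl (fun e _ => ?_)
    unfold wt
    rw [dif_pos (show ((Function.Embedding.subtype _) e : Sym2 (Fin (n + 1))) ∈ Γ.edgeSet from e.2)]
    rfl

end Run7.h24.GH
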