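import Pool.Agent.Run7.h570.GH.Iface

/-! Project GH (helper570): regular functions (helper24). -/

set_option autoImplicit false

open CategoryTheory AlgebraicGeometry MvPolynomial Pool.Agent.Y116.UV Pool.Agent.Z125.UN
  Pool.Agent.Q282.UZ

namespace Run7.h24.GH

open Run7.h570.GH

variable {R : Type} [CommRing R] {σ : Type} {S : Fam R σ}

theorem rg_congr {F G : Fun R σ} (h : Rg S F)
    (he : ∀ (K : Type) [Field K] [Algebra R K] (x : σ → K), S K x → G K x = F K x) : Rg S G := by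
  obtain ⟨n, d, hnd⟩ := h
  refine ⟨n, d, fun K _ _ x hx => ?_⟩
  rw [he K x hx]
  exact hnd K x hx

theorem rg_var (s : σ) : Rg S (fun _ _ _ x => x s) :=
  ⟨X s, 1, fun K _ _ x _ => by simp⟩

theorem rg_zero : Rg S (fun _ _ _ _ => 0) :=
  ⟨0, 1, fun K _ _ x _ => by simp⟩

theorem rg_one : Rg S (fun _ _ _ _ => 1) :=
  ⟨1, 1, fun K _ _ x _ => by simp⟩

theorem rg_mul {F G : Fun R σ} (hF : Rg S F) (hG : Rg S G) :
    Rg S (fun K _ _ x => F K x * G K x) := by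
  obtain ⟨n, d, hF⟩ := hF
  obtain ⟨n', d', hG⟩ := hG
  refine ⟨n * n', d * d', fun K _ _ x hx => ?_⟩
  obtain ⟨h1, h2⟩ := hF K x hx
  obtain ⟨h3, h4⟩ := hG K x hx
  rw [map_mul, map_mul, ← h2, ← h4]
  exact ⟨mul_ne_zero h1 h3, by ring⟩

theorem rg_add {F G : Fun R σ} (hF : Rg S F) (hG : Rg S G) :
    Rg S (fun K _ _ x => F K x + G K x) := by
  obtain ⟨n, d, hF⟩ := hF
  obtain ⟨n', d', hG⟩ := hG
  refine ⟨n * d' + n' * d, d * d', fun K _ _ x hx => ?_⟩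
  obtain ⟨h1, h2⟩ := hF K x hx
  obtain ⟨h3, h4⟩ := hG K x hx
  rw [map_add, map_mul, map_mul, map_mul, ← h2, ← h4]
  exact ⟨mul_ne_zero h1 h3, by ring⟩

theorem rg_neg {F : Fun R σ} (hF : Rg S F) : Rg S (fun K _ _ x => - F K x) := by
  obtain ⟨n, d, hF⟩ := hF
  refine ⟨-n, d, fun K _ _ x hx => ?_⟩
  obtain ⟨h1, h2⟩ := hF K x hx
  rw [map_neg, ← h2]
  exact ⟨h1, by ring⟩

theorem rg_sum {ι : Type} (s : Finset ι) (F : ι → Fun R σ) (h : ∀ i, Rg S (F i)) :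
    Rg S (fun K _ _ x => ∑ i ∈ s, F i K x) := by
  classical
  induction s using Finset.induction_on with
  | empty => exact rg_congr rg_zero (fun K _ _ x _ => by simp)
  | insert a s ha ih =>
    exact rg_congr (rg_add (h a) ih) (fun K _ _ x _ => by rw [Finset.sum_insert ha])

theorem rg_inv (s : σ) (h : ∀ (K : Type) [Field K] [Algebra R K] (x : σ → K), S K x → x s ≠ 0) :
    Rg S (fun _ _ _ x => (x s)⁻¹) :=
  ⟨1, X s, fun K _ _ x hx => by
    rw [aeval_X, map_one]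
    exact ⟨h K x hx, inv_mul_cancel₀ (h K x hx)⟩⟩

end Run7.h24.GH
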